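import Pool.Agent.H85.AU.Targets

/-!
# MP_c9ef16_gt: goodness of `Q^r` (module PWR)
-/

open CategoryTheory CategoryTheory.Limits TopologicalSpace Topology Set

universe w

namespace Pool.Agent.H16.AU

open Pool.Agent.H85.AU

theorem good_zero {X : Type} [TopologicalSpace X] {C : Type 1} [Category.{0} C] [Abelian C]
    [HasExt.{w} C] (c : CutSys X C) {A : C} (hA : IsZero A) (B : C) (x : X) :
    CutSys.Good.{w} c A B x := by
  intro n V hx
  refine ⟨V, hx, le_refl V, ?_⟩
  refine (Set.finite_singleton (0 : Abelian.Ext.{w} (c.ob V A) B n)).subset ?_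
  rintro _ ⟨α, rfl⟩
  rw [CutSys.rs_refl, Set.mem_singleton_iff]
  have h1 : (𝟙 (c.ob V A)) = 0 := (c.isZero_ob hA V).eq_of_src _ _
  rw [← Abelian.Ext.mk₀_id_comp α, h1, Abelian.Ext.mk₀_zero, Abelian.Ext.zero_comp]

theorem pwr (hMDA : T_MDA.{w}) : T_PWR.{w} := by
  intro X _ C _ _ _ c Q B x hQ r
  induction r with
  | zero => exact good_zero c (isZero_zero C) B x
  | succ r ih =>
    let S : ShortComplex C := ShortComplex.mk (biprod.inl : pw Q r ⟶ pw Q r ⊞ Q) biprod.snd
      (by simp)
    have hS : S.Splitting := ShortComplex.Splitting.ofHasBinaryBiproduct (pw Q r) Q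
    exact hMDA X C c S hS.shortExact B x ih hQ

end Pool.Agent.H16.AU
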